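import Pool.Agent.W_317df6_h77.Main

/-!
# MP_317df6_an: no uniform blow-up for `γ < 0` in the mass-subcritical case `0 < α < 4/N`

`CGL.IsMild N α θ γ T u0 u` says that `u ∈ C([0,T], C_0(ℝ^N))` is a mild solution of
`u_t = e^{iθ}(Δu + |u|^α u) + γ u`, `u(0) = u0`, on `[0,T]`
(`Pool/Agent/W_317df6_h83/Defs.lean`).

The theorem: let `N ≥ 1`, `0 < α < 4/N`, `γ < 0` and `m > 0`.  There is `θ1 < π/2` such that for all
`θ ∈ [θ1, π/2)` and all `u0 ∈ C_0 ∩ L²` with `∫ |u0|² ≤ m` (in particular for all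
`u0 ∈ C_0 ∩ H^1` in that ball of `L²`) the solution is global (and unique, and its mass never
exceeds that of `u0`).  So the answer to Q1 is negative for `0 < α < 4/N`.
-/

set_option autoImplicit false

namespace Pool.Agent.Results.MP_317df6_an.SubcriticalGlobal

open MeasureTheory Set
open scoped ZeroAtInfty

theorem result (N : ℕ) (hN : 1 ≤ N) (α γ : ℝ) (hα : 0 < α) (hα4 : α < 4 / (N : ℝ)) (hγ : γ < 0)
    (m : ℝ) :
    ∃ θ1 : ℝ, 0 ≤ θ1 ∧ θ1 < Real.pi / 2 ∧ ∀ θ : ℝ, θ1 ≤ θ → θ < Real.pi / 2 →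
      ∀ u0 : C₀(CGL.E N, ℂ), MemLp u0 2 volume → ∫ x, ‖u0 x‖ ^ 2 ≤ m →
        ∃ u : ℝ → C₀(CGL.E N, ℂ), (∀ T : ℝ, 0 < T → CGL.IsMild N α θ γ T u0 u) ∧
          (∀ t : ℝ, 0 ≤ t → MemLp (u t) 2 volume ∧ ∫ x, ‖u t x‖ ^ 2 ≤ ∫ x, ‖u0 x‖ ^ 2) ∧
          (∀ T : ℝ, ∀ v : ℝ → C₀(CGL.E N, ℂ), CGL.IsMild N α θ γ T u0 v →
            ∀ t ∈ Icc 0 T, v t = u t) := by
  obtain ⟨C, hC, h⟩ := CGL.Neg.global_solution hN hα hα4
  have hN0 : (0:ℝ) < N := by exact_mod_cast hN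
  have hNα : (N:ℝ) * α < 4 := by
    have := mul_lt_mul_of_pos_left hα4 hN0
    rwa [mul_div_cancel₀ _ hN0.ne'] at this
  have he : 0 ≤ 2 * α / (4 - N * α) := (div_pos (by linarith) (by linarith)).le
  set A : ℝ := |m| ^ (2 * α / (4 - N * α)) with hA
  have hA0 : 0 ≤ A := Real.rpow_nonneg (abs_nonneg _) _
  have hγ' : 0 < -γ := neg_pos.2 hγ
  have hpi := Real.pi_pos
  -- `cos θ → 0` as `θ → π/2`
  have hlim : Filter.Tendsto (fun θ : ℝ => C * Real.cos θ * A) (nhds (Real.pi / 2))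
      (nhds (C * Real.cos (Real.pi / 2) * A)) :=
    (((Real.continuous_cos.tendsto _).const_mul C).mul_const A)
  rw [Real.cos_pi_div_two, mul_zero, zero_mul] at hlim
  have hev : ∀ᶠ θ in nhds (Real.pi / 2), C * Real.cos θ * A < -γ :=
    hlim.eventually (gt_mem_nhds hγ')
  obtain ⟨ε, hε, hball⟩ := Metric.eventually_nhds_iff.1 hev
  refine ⟨max 0 (Real.pi / 2 - ε / 2), le_max_left _ _, max_lt (by linarith) (by linarith), ?_⟩
  intro θ hθ1 hθ2 u0 hu0 hm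
  have h1 : 0 ≤ θ := (le_max_left _ _).trans hθ1
  have h2 : Real.pi / 2 - ε / 2 ≤ θ := (le_max_right _ _).trans hθ1
  have hcos : 0 < Real.cos θ := Real.cos_pos_of_mem_Ioo ⟨by linarith, hθ2⟩
  have h3 : C * Real.cos θ * A < -γ := by
    refine hball ?_
    rw [Real.dist_eq, abs_lt]
    constructor <;> linarith
  have h4 : (∫ x, ‖u0 x‖ ^ 2) ^ (2 * α / (4 - N * α)) ≤ A :=
    Real.rpow_le_rpow (integral_nonneg fun x => by positivity) (hm.trans (le_abs_self m)) he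
  have h5 : C * Real.cos θ * (∫ x, ‖u0 x‖ ^ 2) ^ (2 * α / (4 - N * α)) ≤ -γ :=
    (mul_le_mul_of_nonneg_left h4 (by positivity)).trans h3.le
  obtain ⟨u, hu, hmass⟩ := h u0 hu0 θ γ hcos hγ h5
  refine ⟨u, hu, hmass, fun T v hv t ht => ?_⟩
  rcases ht.1.eq_or_lt with h0 | h0
  · rw [← h0, hv.init, (hu 1 one_pos).init]
  · have hT : 0 < T := lt_of_lt_of_le h0 ht.2
    exact CGL.IsMild.unique hα hcos hv (hu T hT) t ht

end Pool.Agent.Results.MP_317df6_an.SubcriticalGlobal
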