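import Pool.Agent.W_317df6_h83.Main

/-!
# MP_317df6_an: finite time blow-up for the complex Ginzburg-Landau equation with `γ < 0`,
uniformly for `θ` near `π/2`

`CGL.IsMild N α θ γ T u0 u` says that `u ∈ C([0,T], C_0(ℝ^N))` is a mild solution of
`u_t = e^{iθ}(Δu + |u|^α u) + γ u`, `u(0) = u0`, on `[0,T]`
(`Pool/Agent/W_317df6_h83/Defs.lean`).  The theorem says: if `N ≥ 2`, `4/N < α ≤ 4`, `γ < 0`, then
there is a nonzero `u0 ∈ C_c^∞(ℝ^N)` (so `u0 ∈ C_0 ∩ H^1`), a `θ0 < π/2` and a time `Tb` such that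
for every `θ ∈ [θ0, π/2)` no mild solution with initial value `u0` exists on `[0, Tb]`; so the
maximal solution satisfies `T_max ≤ Tb < ∞`: it blows up in finite time.
-/

set_option autoImplicit false

namespace Pool.Agent.Results.MP_317df6_an.UniformBlowup

open scoped ZeroAtInfty ContDiff

theorem result (N : ℕ) (hN : 2 ≤ N) (α γ : ℝ) (hα : 4 / (N : ℝ) < α) (hα4 : α ≤ 4)
    (hγ : γ < 0) :
    ∃ u0 : C₀(CGL.E N, ℂ), u0 ≠ 0 ∧ ContDiff ℝ ∞ u0 ∧ HasCompactSupport u0 ∧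
      ∃ θ0 : ℝ, 0 ≤ θ0 ∧ θ0 < Real.pi / 2 ∧ ∃ Tb : ℝ, 0 < Tb ∧
        ∀ θ : ℝ, θ0 ≤ θ → θ < Real.pi / 2 → ∀ u : ℝ → C₀(CGL.E N, ℂ),
          ¬ CGL.IsMild N α θ γ Tb u0 u :=
  CGL.blowup hN hα hα4 hγ

end Pool.Agent.Results.MP_317df6_an.UniformBlowup
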